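import Pool.Agent.N754.GF.Stm

/-!
GF/DBD: derivations have bounded poles along a divisorial place.
-/

set_option autoImplicit false

open MvPolynomial FF Pool.Agent.W603.LV

namespace Pool.Agent.N803.GF

open Pool.Agent.W602.GT (Divisorial)
open Pool.Agent.N754.GF

variable {k K : Type} [Field k] [Field K] [Algebra k K]

/-- regular elements whose derivative has a pole of order at most `n` -/
def Bd (P : Place k K) (D : Derivation k K K) (n : ℕ) (x : K) : Prop :=
  P.Reg x ∧ Ge P (-(n : ℤ)) (D x)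

theorem Bd.add {P : Place k K} {D : Derivation k K K} {n : ℕ} {x y : K} (hx : Bd P D n x)
    (hy : Bd P D n y) : Bd P D n (x + y) :=
  ⟨P.reg_add hx.1 hy.1, by rw [map_add]; exact hx.2.add hy.2⟩

theorem Bd.mul {P : Place k K} {D : Derivation k K K} {n : ℕ} {x y : K} (hx : Bd P D n x)
    (hy : Bd P D n y) : Bd P D n (x * y) := by
  refine ⟨P.reg_mul hx.1 hy.1, ?_⟩
  rw [D.leibniz, smul_eq_mul, smul_eq_mul]
  have h1 : Ge P (0 + -(n : ℤ)) (x * D y) := Ge.mul hx.1 hy.2
  have h2 : Ge P (0 + -(n : ℤ)) (y * D x) := Ge.mul hy.1 hx.2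
  rw [zero_add] at h1 h2
  exact h1.add h2

theorem Bd.const (P : Place k K) (D : Derivation k K K) (n : ℕ) (c : k) :
    Bd P D n (algebraMap k K c) :=
  ⟨P.reg_const c, by rw [D.map_algebraMap]; exact Ge.zero⟩

theorem Bd.mono {P : Place k K} {D : Derivation k K K} {n m : ℕ} (h : n ≤ m) {x : K}
    (hx : Bd P D n x) : Bd P D m x :=
  ⟨hx.1, hx.2.mono (by omega)⟩

theorem Bd.inv {P : Place k K} {D : Derivation k K K} {n : ℕ} {x : K} (hx : Bd P D n x)
    (h1 : P.ord x = 0) : Bd P D n x⁻¹ := by
  have h2 : P.Reg x⁻¹ := Or.inr (by rw [P.ord_inv, h1]; simp)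
  refine ⟨h2, ?_⟩
  rw [D.leibniz_inv, smul_eq_mul]
  have h3 : Ge P 0 (-x⁻¹ ^ 2) := by
    have h4 : Ge P 0 x⁻¹ := h2
    have h5 := (h4.pow 2).neg
    simpa using h5
  have h6 : Ge P (0 + -(n : ℤ)) (-x⁻¹ ^ 2 * D x) := h3.mul hx.2
  rwa [zero_add] at h6

/-- every element has a bound for the poles of the derivative -/
theorem exists_ge (P : Place k K) (x : K) : ∃ n : ℕ, Ge P (-(n : ℤ)) x :=
  ⟨(P.ord x).natAbs, Or.inr (by omega)⟩

theorem exists_ge_fin (P : Place k K) {ι : Type} [Finite ι] (x : ι → K) :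
    ∃ n : ℕ, ∀ i, Ge P (-(n : ℤ)) (x i) := by
  classical
  have := Fintype.ofFinite ι
  choose m hm using fun i => exists_ge P (x i)
  refine ⟨∑ i, m i, fun i => (hm i).mono ?_⟩
  have h1 : m i ≤ ∑ i, m i := Finset.single_le_sum (fun j _ => Nat.zero_le (m j))
    (Finset.mem_univ i)
  omega

/-- polynomial expressions -/
theorem Bd.aeval {P : Place k K} {D : Derivation k K K} {n : ℕ} {ι : Type} (y : ι → K)
    (hy : ∀ i, Bd P D n (y i)) (p : MvPolynomial ι k) : Bd P D n (MvPolynomial.aeval y p) := by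
  induction p using MvPolynomial.induction_on with
  | C c =>
    rw [aeval_C]
    exact Bd.const P D n c
  | add p q hp hq =>
    rw [map_add]
    exact hp.add hq
  | mul_X p i hp =>
    rw [map_mul, aeval_X]
    exact hp.mul (hy i)

/-- the order of a polynomial in the uniformizer over a ring of elements of order zero -/
theorem ord_poly {R : Type} [CommRing R] [Algebra R K] (P : Place k K)
    (h : ∀ a : R, a ≠ 0 → algebraMap R K a ≠ 0 ∧ P.ord (algebraMap R K a) = 0) {π : K}
    (hπ : P.ord π = 1) (hπ0 : π ≠ 0) (G : Polynomial R) (hG : G ≠ 0) :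
    ∃ (e : ℕ) (G' : Polynomial R), G = Polynomial.X ^ e * G' ∧ Polynomial.aeval π G' ≠ 0 ∧
      P.ord (Polynomial.aeval π G') = 0 := by
  have hreg : ∀ a : R, P.Reg (algebraMap R K a) := by
    intro a
    by_cases ha : a = 0
    · rw [ha, map_zero]; exact P.reg_zero
    · exact Or.inr (h a ha).2.ge
  have hregp : ∀ G : Polynomial R, P.Reg (Polynomial.aeval π G) := by
    intro G
    induction G using Polynomial.induction_on' with
    | add p q hp hq => rw [map_add]; exact P.reg_add hp hq
    | monomial n a =>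
      rw [Polynomial.aeval_monomial]
      refine P.reg_mul (hreg a) (Or.inr ?_)
      rw [P.ord_pow, hπ]; simp
  obtain ⟨G', hG', hdvd⟩ := Polynomial.exists_eq_pow_rootMultiplicity_mul_and_not_dvd G hG (0 : R)
  rw [map_zero, sub_zero] at hG' hdvd
  refine ⟨_, G', hG', ?_⟩
  have h0 : G'.coeff 0 ≠ 0 := by
    intro h0
    exact hdvd (Polynomial.X_dvd_iff.2 h0)
  have h1 : Polynomial.aeval π G' = algebraMap R K (G'.coeff 0) +
      Polynomial.aeval π G'.divX * π := by
    conv_lhs => rw [← Polynomial.divX_mul_X_add G']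
    rw [map_add, map_mul, Polynomial.aeval_X, Polynomial.aeval_C, add_comm]
  obtain ⟨h2, h3⟩ := h _ h0
  by_cases h4 : Polynomial.aeval π G'.divX * π = 0
  · rw [h1, h4, add_zero]
    exact ⟨h2, h3⟩
  · have h5 : Polynomial.aeval π G'.divX ≠ 0 := left_ne_zero_of_mul h4
    have h6 : P.ord (Polynomial.aeval π G'.divX * π) = P.ord (Polynomial.aeval π G'.divX) + 1 := by
      rw [P.ord_mul h5 hπ0, hπ]
    have h7 := (P.reg_iff h5).1 (hregp _)
    obtain ⟨h8, h9⟩ := P.ord_add_eq h2 h4 (by omega)
    rw [h1]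
    exact ⟨h8, by rw [h9, h3]⟩

/-- regular elements are quotients of integral elements -/
theorem frac (P : Place k K) (B : Subring K) (hB : ∀ x ∈ B, P.Reg x) (f : K) (hf : P.Reg f)
    (hint : ∀ (m : ℕ) (a : ℕ → K), (∀ i, a i ∈ B) → ∑ i ∈ Finset.range (m + 1), a i * f ^ i = 0 →
      a m * f ∈ B) :
    ∀ (m : ℕ) (a : ℕ → K), (∀ i, a i ∈ B) → ∑ i ∈ Finset.range (m + 1), a i * f ^ i = 0 →
      (∃ i ≤ m, a i ≠ 0 ∧ P.ord (a i) = 0) → ∃ s ∈ B, s ≠ 0 ∧ P.ord s = 0 ∧ s * f ∈ B := by
  intro m
  induction m with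
  | zero =>
    rintro a ha h0 ⟨i, hi, hi0, -⟩
    exfalso
    apply hi0
    obtain rfl : i = 0 := by omega
    simpa using h0
  | succ m ih =>
    rintro a ha h0 ⟨i, hi, hi0, hi1⟩
    have hc := hint (m + 1) a ha h0
    by_cases hlast : a (m + 1) ≠ 0 ∧ P.ord (a (m + 1)) = 0
    · exact ⟨a (m + 1), ha _, hlast.1, hlast.2, hc⟩
    · have hnlt : a (m + 1) = 0 ∨ 0 < P.ord (a (m + 1)) := by
        by_cases h1 : a (m + 1) = 0
        · exact Or.inl h1
        · right
          have h2 := (P.reg_iff h1).1 (hB _ (ha (m + 1)))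
          have h3 : P.ord (a (m + 1)) ≠ 0 := fun h => hlast ⟨h1, h⟩
          omega
      refine ih (Function.update a m (a m + a (m + 1) * f)) (fun j => ?_) ?_ ?_
      · by_cases hj : j = m
        · rw [hj, Function.update_self]
          exact B.add_mem (ha m) hc
        · rw [Function.update_of_ne hj]
          exact ha j
      · rw [Finset.sum_range_succ, Finset.sum_range_succ] at h0
        rw [Finset.sum_range_succ, Function.update_self]
        rw [← h0]
        have h1 : ∑ x ∈ Finset.range m, Function.update a m (a m + a (m + 1) * f) x * f ^ x =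
            ∑ x ∈ Finset.range m, a x * f ^ x := by
          apply Finset.sum_congr rfl
          intro x hx
          rw [Function.update_of_ne (by have := Finset.mem_range.1 hx; omega)]
        rw [h1]
        ring
      · have hi2 : i ≠ m + 1 := by
          rintro rfl
          exact hlast ⟨hi0, hi1⟩
        by_cases hi3 : i = m
        · subst hi3
          refine ⟨i, le_rfl, ?_⟩
          rw [Function.update_self]
          by_cases h1 : a (i + 1) * f = 0
          · rw [h1, add_zero]
            exact ⟨hi0, hi1⟩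
          · have h2 : a (i + 1) ≠ 0 := left_ne_zero_of_mul h1
            have h3 : f ≠ 0 := right_ne_zero_of_mul h1
            have h4 := (P.reg_iff h3).1 hf
            have h5 := hnlt.resolve_left h2
            have h6 := P.ord_mul h2 h3
            obtain ⟨h7, h8⟩ := P.ord_add_eq hi0 h1 (by omega)
            exact ⟨h7, by rw [h8, hi1]⟩
        · refine ⟨i, by omega, ?_⟩
          rw [Function.update_of_ne hi3]
          exact ⟨hi0, hi1⟩

/-- the derivatives of integral elements -/
theorem span_bd (P : Place k K) (D : Derivation k K K) {O₁ : Type} [CommRing O₁] [Algebra O₁ K]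
    (n : ℕ) (hO : ∀ c : O₁, Bd P D n (algebraMap O₁ K c)) {ι : Type} [Finite ι] (e : ι → K) :
    ∃ m : ℕ, ∀ z ∈ Submodule.span O₁ (Set.range e), Ge P (-(m : ℤ)) (D z) := by
  classical
  have := Fintype.ofFinite ι
  obtain ⟨m1, hm1⟩ := exists_ge_fin P e
  obtain ⟨m2, hm2⟩ := exists_ge_fin P (fun i => D (e i))
  refine ⟨m1 + m2 + n, fun z hz => ?_⟩
  obtain ⟨c, rfl⟩ := (Submodule.mem_span_range_iff_exists_fun O₁).1 hz
  rw [map_sum]
  refine Ge.sum _ _ fun i _ => ?_
  rw [Algebra.smul_def, D.leibniz, smul_eq_mul, smul_eq_mul]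
  have h1 : Ge P (0 + -(m2 : ℤ)) (algebraMap O₁ K (c i) * D (e i)) := Ge.mul (hO (c i)).1 (hm2 i)
  have h2 : Ge P (-(m1 : ℤ) + -(n : ℤ)) (e i * D (algebraMap O₁ K (c i))) :=
    Ge.mul (hm1 i) (hO (c i)).2
  exact (h1.mono (by omega)).add (h2.mono (by omega))

theorem dbd : S_DBD := by
  intro k K _ _ _ _ T hT w hw P hP D
  classical
  obtain ⟨u, hu⟩ := hP
  obtain ⟨π, hπ0, hπ⟩ := P.surj
  let _ : Algebra (MvPolynomial (Fin (w - 1)) k) K := (MvPolynomial.aeval u).toAlgebra
  have halgu : ∀ a : MvPolynomial (Fin (w - 1)) k, algebraMap _ K a = MvPolynomial.aeval u a :=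
    fun _ => rfl
  obtain ⟨y, hy⟩ : ∃ y : Option (Fin (w - 1)) → K, y = fun o => o.elim π u := ⟨_, rfl⟩
  have heq : ∀ r : MvPolynomial (Option (Fin (w - 1))) k,
      Polynomial.aeval π (optionEquivLeft k (Fin (w - 1)) r) = MvPolynomial.aeval y r := by
    intro r
    induction r using MvPolynomial.induction_on with
    | C c =>
      rw [optionEquivLeft_C, Polynomial.aeval_C, halgu, aeval_C, aeval_C]
    | add p q hp hq => rw [map_add, map_add, map_add, hp, hq]
    | mul_X p i hp =>
      rw [map_mul, map_mul, map_mul, hp]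
      congr 1
      cases i with
      | none => rw [optionEquivLeft_X_none, Polynomial.aeval_X, aeval_X, hy]; rfl
      | some i => rw [optionEquivLeft_X_some, Polynomial.aeval_C, halgu, aeval_X, aeval_X, hy]; rfl
  have hpoly := fun G hG => ord_poly P (R := MvPolynomial (Fin (w - 1)) k) (fun a ha => hu a ha)
    hπ hπ0 G hG
  have hne : ∀ r : MvPolynomial (Option (Fin (w - 1))) k, r ≠ 0 →
      ∃ (e : ℕ) (G : Polynomial (MvPolynomial (Fin (w - 1)) k)),
        MvPolynomial.aeval y r = π ^ e * Polynomial.aeval π G ∧ Polynomial.aeval π G ≠ 0 ∧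
          P.ord (Polynomial.aeval π G) = 0 := by
    intro r hr
    obtain ⟨e, G, hG, hG0, hG1⟩ := hpoly (optionEquivLeft k (Fin (w - 1)) r)
      (by rwa [Ne, EmbeddingLike.map_eq_zero_iff])
    refine ⟨e, G, ?_, hG0, hG1⟩
    rw [← heq, hG, map_mul, map_pow, Polynomial.aeval_X]
  have hind : AlgebraicIndependent k y := by
    rw [algebraicIndependent_iff]
    intro p hp
    by_contra hp0
    obtain ⟨e, G, h1, h2, -⟩ := hne p hp0
    rw [h1] at hp
    exact mul_ne_zero (pow_ne_zero _ hπ0) h2 hp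
  have hcard : Cardinal.mk (Option (Fin (w - 1))) = ((w - 1 + 1 : ℕ) : Cardinal) := by
    rw [Cardinal.mk_fintype]
    simp
  have hw1 : w - 1 + 1 = w := by
    have h1 := hind.cardinalMk_le_trdeg
    rw [hw, hcard] at h1
    have h2 : w - 1 + 1 ≤ w := by exact_mod_cast h1
    omega
  have hbas : IsTranscendenceBasis k y := by
    apply hind.isTranscendenceBasis_of_trdeg_le_of_finite
    rw [hw, hcard, hw1]
  -- the subfield
  obtain ⟨K₁, hK₁⟩ : ∃ K₁ : IntermediateField k K, K₁ = IntermediateField.adjoin k (Set.range y) :=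
    ⟨_, rfl⟩
  have halg : Algebra.IsAlgebraic K₁ K := by
    rw [hK₁]
    exact hbas.isAlgebraic_field
  have hfin : FiniteDimensional K₁ K := by
    have h1 : IntermediateField.adjoin K₁ (T : Set K) = ⊤ := by
      rw [eq_top_iff]
      intro x _
      have h2 : IntermediateField.adjoin k (T : Set K) ≤
          (IntermediateField.adjoin K₁ (T : Set K)).restrictScalars k := by
        rw [IntermediateField.adjoin_le_iff]
        exact IntermediateField.subset_adjoin K₁ (T : Set K)
      rw [hT] at h2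
      exact h2 (IntermediateField.mem_top (x := x))
    have h2 : FiniteDimensional K₁ (IntermediateField.adjoin K₁ (T : Set K)) :=
      IntermediateField.finiteDimensional_adjoin fun x _ => Algebra.IsIntegral.isIntegral x
    rw [h1] at h2
    exact Module.Finite.equiv (IntermediateField.topEquiv (F := K₁) (E := K)).toLinearEquiv
  have hchar : CharZero K₁ := charZero_of_injective_algebraMap (algebraMap k K₁).injective
  -- the valuation ring of the subfield
  obtain ⟨O₁, hO₁⟩ : ∃ O₁ : ValuationSubring K₁, O₁ = P.O.comap (algebraMap K₁ K) := ⟨_, rfl⟩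
  have hmem : ∀ x : K₁, x ∈ O₁ ↔ P.Reg (x : K) := by
    intro x
    rw [hO₁]
    exact Iff.rfl
  let _ : Algebra O₁ K := ((algebraMap K₁ K).comp (algebraMap O₁ K₁)).toAlgebra
  have : IsScalarTower O₁ K₁ K := IsScalarTower.of_algebraMap_eq' rfl
  have hmap : ∀ x : O₁, algebraMap O₁ K x = ((x : K₁) : K) := fun _ => rfl
  -- the derivation is bounded on the valuation ring of the subfield
  obtain ⟨n₁, hn₁⟩ := exists_ge_fin P (fun i => D (y i))
  have hybd : ∀ i, Bd P D n₁ (y i) := by
    intro i
    refine ⟨?_, hn₁ i⟩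
    cases i with
    | none =>
      rw [hy]
      exact Or.inr (by change 0 ≤ P.ord π; omega)
    | some i =>
      rw [hy]
      have h1 := hu (X i) (X_ne_zero i)
      rw [aeval_X] at h1
      exact Or.inr h1.2.ge
  have hpbd : ∀ G : Polynomial (MvPolynomial (Fin (w - 1)) k),
      Bd P D n₁ (Polynomial.aeval π G) := by
    intro G
    have h1 := heq ((optionEquivLeft k (Fin (w - 1))).symm G)
    rw [AlgEquiv.apply_symm_apply] at h1
    rw [h1]
    exact Bd.aeval y hybd _
  have hπbd : Bd P D n₁ π := by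
    have := hybd none
    rwa [hy] at this
  have hpow : ∀ j : ℕ, Bd P D n₁ (π ^ j) := by
    intro j
    induction j with
    | zero =>
      have := Bd.const P D n₁ (1 : k)
      rw [map_one] at this
      rwa [pow_zero]
    | succ j ih => rw [pow_succ]; exact ih.mul hπbd
  have hObd : ∀ c : O₁, Bd P D n₁ (algebraMap O₁ K c) := by
    intro c
    rw [hmap]
    have hreg : P.Reg ((c : K₁) : K) := (hmem _).1 c.2
    have hK : ((c : K₁) : K) ∈ IntermediateField.adjoin k (Set.range y) := by
      rw [← hK₁]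
      exact (c : K₁).2
    rw [IntermediateField.mem_adjoin_range_iff] at hK
    obtain ⟨r, s, hrs⟩ := hK
    generalize ((c : K₁) : K) = x at hreg hrs
    by_cases hx : x = 0
    · have := Bd.const P D n₁ (0 : k)
      rwa [map_zero, ← hx] at this
    have hr : r ≠ 0 := by
      rintro rfl
      apply hx
      rw [hrs, map_zero, zero_div]
    have hs : s ≠ 0 := by
      rintro rfl
      apply hx
      rw [hrs, map_zero, div_zero]
    obtain ⟨a, A, hA, hA0, hA1⟩ := hne r hr
    obtain ⟨b, B, hB, hB0, hB1⟩ := hne s hs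
    have hpa := pow_ne_zero a hπ0
    have hpb := pow_ne_zero b hπ0
    have hord : P.ord x = a - b := by
      rw [hrs, hA, hB, P.ord_div (mul_ne_zero hpa hA0) (mul_ne_zero hpb hB0), P.ord_mul hpa hA0,
        P.ord_mul hpb hB0, hA1, hB1, P.ord_pow, P.ord_pow, hπ]
      ring
    have hab : b ≤ a := by
      have := (P.reg_iff hx).1 hreg
      omega
    have hxe : x = π ^ (a - b) * Polynomial.aeval π A * (Polynomial.aeval π B)⁻¹ := by
      rw [hrs, hA, hB, div_eq_iff (mul_ne_zero hpb hB0)]
      have h1 : π ^ a = π ^ (a - b) * π ^ b := by rw [← pow_add, Nat.sub_add_cancel hab]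
      rw [h1]
      field_simp
    rw [hxe]
    exact ((hpow _).mul (hpbd A)).mul ((hpbd B).inv hB1)
  -- integral elements
  have hintreg : ∀ z : K, IsIntegral O₁ z → P.Reg z := by
    rintro z ⟨p, hp, hpz⟩
    obtain ⟨g, hg⟩ : ∃ g : O₁ →+* P.O, ∀ x, algebraMap P.O K (g x) = algebraMap O₁ K x :=
      ⟨(algebraMap O₁ K).codRestrict P.O (fun x => (hmem _).1 x.2), fun _ => rfl⟩
    have h1 : IsIntegral P.O z := by
      refine ⟨p.map g, hp.map g, ?_⟩
      rw [Polynomial.eval₂_map]
      have h2 : (algebraMap P.O K).comp g = algebraMap O₁ K := RingHom.ext hg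
      rw [h2]
      exact hpz
    obtain ⟨x, hx⟩ := IsIntegrallyClosed.isIntegral_iff.1 h1
    rw [← hx]
    exact x.2
  obtain ⟨s, b, hb⟩ := FiniteDimensional.exists_is_basis_integral O₁ K₁ K
  have hspan := integralClosure_le_span_dualBasis (A := O₁) (K := K₁) (L := K) b hb
  obtain ⟨m, hm⟩ := span_bd P D n₁ hObd ((Algebra.traceForm K₁ K).dualBasis
    (traceForm_nondegenerate K₁ K) b)
  have hintbd : ∀ z : K, IsIntegral O₁ z → Bd P D m z := fun z hz =>
    ⟨hintreg z hz, hm z (hspan hz)⟩
  refine ⟨m, fun f hf => ?_⟩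
  -- an equation of `f`
  obtain ⟨p, hp0, hpf⟩ := halg.isAlgebraic f
  obtain ⟨i₀, hi₀, hmin⟩ := Finset.exists_min_image p.support (fun i => P.ord (p.coeff i : K))
    (Polynomial.support_nonempty.2 hp0)
  have hc0 : p.coeff i₀ ≠ 0 := Polynomial.mem_support_iff.1 hi₀
  have hc0' : ((p.coeff i₀ : K₁) : K) ≠ 0 := fun h => hc0 (Subtype.ext h)
  have hfr := frac P (integralClosure O₁ K).toSubring (fun x hx => hintreg x hx) f hf (by
    intro m a ha h0
    by_cases ham : a m = 0
    · rw [ham, zero_mul]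
      exact Subring.zero_mem _
    obtain ⟨A, hA⟩ : ∃ A : Polynomial (integralClosure O₁ K), A = ∑ i ∈ Finset.range (m + 1),
      Polynomial.monomial i ⟨a i, ha i⟩ := ⟨_, rfl⟩
    have hAf : Polynomial.aeval f A = 0 := by
      rw [hA, map_sum, ← h0]
      apply Finset.sum_congr rfl
      intro i _
      rw [Polynomial.aeval_monomial]
      rfl
    have hcoef : ∀ j, A.coeff j = if j ∈ Finset.range (m + 1) then ⟨a j, ha j⟩ else 0 := by
      intro j
      rw [hA, Polynomial.finsetSum_coeff]
      simp only [Polynomial.coeff_monomial]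
      rw [Finset.sum_ite_eq']
    have hdeg : A.natDegree = m := by
      apply le_antisymm
      · rw [Polynomial.natDegree_le_iff_coeff_eq_zero]
        intro j hj
        rw [hcoef, if_neg (by rw [Finset.mem_range]; omega)]
      · apply Polynomial.le_natDegree_of_ne_zero
        rw [hcoef, if_pos (by rw [Finset.mem_range]; omega)]
        intro h
        exact ham (congrArg Subtype.val h)
    have h1 := isIntegral_leadingCoeff_smul A f hAf
    have h2 := isIntegral_trans (R := O₁) _ h1
    have h3 : A.leadingCoeff • f = a m * f := by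
      rw [Polynomial.leadingCoeff, hdeg, hcoef, if_pos (by rw [Finset.mem_range]; omega)]
      rfl
    rw [h3] at h2
    exact h2)
  obtain ⟨t, ht, ht0, ht1, htf⟩ := hfr p.natDegree
    (fun i => ((p.coeff i₀)⁻¹ * p.coeff i : K₁)) (by
      intro i
      have h1 : ((p.coeff i₀)⁻¹ * p.coeff i : K₁) ∈ O₁ := by
        rw [hmem]
        by_cases hi : p.coeff i = 0
        · rw [hi, mul_zero]
          exact P.reg_zero
        · have h2 := hmin i (Polynomial.mem_support_iff.2 hi)
          have hi' : ((p.coeff i : K₁) : K) ≠ 0 := fun h => hi (Subtype.ext h)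
          right
          have h3 : (((p.coeff i₀)⁻¹ * p.coeff i : K₁) : K) =
            ((p.coeff i₀ : K₁) : K)⁻¹ * ((p.coeff i : K₁) : K) := rfl
          rw [h3, P.ord_mul (inv_ne_zero hc0') hi', P.ord_inv]
          omega
      exact isIntegral_algebraMap (R := O₁) (A := K) (x := ⟨_, h1⟩)) (by
      rw [Polynomial.aeval_eq_sum_range] at hpf
      have h1 : ∀ i, ((((p.coeff i₀)⁻¹ * p.coeff i : K₁) : K)) * f ^ i =
        ((p.coeff i₀ : K₁) : K)⁻¹ * (p.coeff i • f ^ i) := by
        intro i
        rw [Algebra.smul_def]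
        change (((p.coeff i₀ : K₁) : K)⁻¹ * ((p.coeff i : K₁) : K)) * f ^ i =
          ((p.coeff i₀ : K₁) : K)⁻¹ * (((p.coeff i : K₁) : K) * f ^ i)
        ring
      rw [Finset.sum_congr rfl fun i _ => h1 i, ← Finset.mul_sum, hpf, mul_zero])
    ⟨i₀, Polynomial.le_natDegree_of_ne_zero hc0, by
      rw [inv_mul_cancel₀ hc0]
      exact ⟨one_ne_zero, P.ord_one⟩⟩
  have h1 : f = t * f * t⁻¹ := by
    rw [mul_comm t f, mul_assoc, mul_inv_cancel₀ ht0, mul_one]
  rw [h1]
  exact ((hintbd _ htf).mul ((hintbd _ ht).inv ht1)).2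

end Pool.Agent.N803.GF
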